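import Pool.Agent.Helper72.GP.REAL

/-!
# Collinear triples of low height are harmless

For an arbitrary finite set `P` of the real plane with few points on every line, the collinear triples
whose points (or whose labels, for any injective labelling of the points by real vectors) divide each
other in a ratio `a : b` of small integers do not matter for the size of the largest subset in general
position: up to `n^{17/32}` only the number `T` of the other collinear triples counts, and one has the
bound `n^{3/2}/T^{1/2}` of a random selection.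
-/

set_option autoImplicit false

open Pool.Agent.Helper72.GP

namespace Pool.Agent.Results.MP_c9dfb5_co.HighRatioTriples

/-- There are `c > 0` and `n₀` such that for every set `P` of `n ≥ n₀` points of the plane with at
most `t ≤ n^{1/8}` points on every line and every injective labelling of `P` by vectors of `ℝ^k`, the
set `P` contains at least `c · min(n^{17/32}, n^{3/2}/(T+1)^{1/2})` points with no three on a line,
where `T` is the number of the (ordered) collinear triples of high ratio. -/
theorem result : ∃ c : ℝ, 0 < c ∧ ∃ n₀ : ℕ, ∀ (k t : ℕ) (P : Finset (ℝ × ℝ))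
    (lab : ℝ × ℝ → Fin k → ℝ), n₀ ≤ P.card → (t : ℝ) ≤ (P.card : ℝ) ^ ((1 : ℝ) / 8) →
    Set.InjOn lab (P : Set (ℝ × ℝ)) →
    (∀ a b d : ℝ, (a ≠ 0 ∨ b ≠ 0) →
      ({p ∈ (P : Set (ℝ × ℝ)) | a * p.1 + b * p.2 = d}).ncard ≤ t) →
    ∃ S ⊆ P, (∀ a b d : ℝ, (a ≠ 0 ∨ b ≠ 0) →
      ({p ∈ (S : Set (ℝ × ℝ)) | a * p.1 + b * p.2 = d}).ncard ≤ 2) ∧
      c * min ((P.card : ℝ) ^ ((17 : ℝ) / 32))
        ((P.card : ℝ) ^ ((3 : ℝ) / 2) / (((HighTriples P lab).ncard : ℝ) + 1) ^ ((1 : ℝ) / 2)) ≤
        (S.card : ℝ) := by
  classical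
  obtain ⟨c, hc, n₀, h⟩ := real_main
  refine ⟨c, hc, n₀, fun k t P lab hP ht hlab hline => ?_⟩
  have hcard : ∀ (T : Finset (ℝ × ℝ)) (a b d : ℝ),
      ({p ∈ (T : Set (ℝ × ℝ)) | a * p.1 + b * p.2 = d}).ncard =
        (@Finset.filter _ (fun p : ℝ × ℝ => a * p.1 + b * p.2 = d)
          (fun p => Classical.propDecidable _) T).card := by
    intro T a b d
    rw [← Set.ncard_coe_finset]
    apply congrArg Set.ncard
    ext p
    simp
  obtain ⟨S, hS, h1, h2⟩ := h k t P lab hP ht hlab (fun a b d hab => by
    have h3 := hline a b d hab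
    rw [hcard] at h3
    exact h3)
  refine ⟨S, hS, fun a b d hab => ?_, h2⟩
  rw [hcard]
  exact h1 a b d hab

end Pool.Agent.Results.MP_c9dfb5_co.HighRatioTriples
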