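import Pool.Agent.Helper72.GP.Fin

/-!
# General position subsets of integer point sets of polynomial height

For every `C` there is `c > 0` such that every large set `P ⊂ ℤ²` of `n` points, with coordinates at
most `n^C` in absolute value and at most `n^c` points on every line, contains `n^{1/2+c}` points with
no three on a line.

The proof. (A) A random selection of Behrend type in which collinear triples of large height are
exactly 3-wise independent: if only `n^{2-ε}` pairs have coordinate differences with a large gcd, then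
there are `n^{1/2+ε/2-o(1)}` points in general position. (C) Siegel's lemma: integer polynomials of
degree about `2μ` through `μ²` random points of `P`. (B) If no residue class modulo `h ≥ n^{1/96}`
contains `n^{1-δ}` of the points and no curve of low degree contains most of a large class, only
`n^{2-δ/16}` pairs have gcd at least `n^{1/48}`. (D) Points on a curve of low degree. (E) Iteration
over residue classes.
-/

set_option autoImplicit false

namespace Pool.Agent.Results.MP_c9dfb5_co.IntegerSets

/-- For every `C` there are `c > 0` and `n₀` such that every set `P` of `n ≥ n₀` points of `ℤ²` with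
coordinates at most `n^C` in absolute value and at most `n^c` points on every line of the plane
contains a set `S` of at least `n^{1/2+c}` points such that no line contains three points of `S`. -/
theorem result : ∀ C : ℕ, ∃ c : ℝ, 0 < c ∧ ∃ n₀ : ℕ, ∀ P : Finset (ℤ × ℤ), n₀ ≤ P.card →
    (∀ p ∈ P, |(p.1 : ℝ)| ≤ (P.card : ℝ) ^ C ∧ |(p.2 : ℝ)| ≤ (P.card : ℝ) ^ C) →
    (∀ a b d : ℝ, (a ≠ 0 ∨ b ≠ 0) →
      (({p ∈ (P : Set (ℤ × ℤ)) | a * (p.1 : ℝ) + b * (p.2 : ℝ) = d}).ncard : ℝ) ≤
        (P.card : ℝ) ^ c) →
    ∃ S ⊆ P, (∀ a b d : ℝ, (a ≠ 0 ∨ b ≠ 0) →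
      ({p ∈ (S : Set (ℤ × ℤ)) | a * (p.1 : ℝ) + b * (p.2 : ℝ) = d}).ncard ≤ 2) ∧
      (P.card : ℝ) ^ (1 / 2 + c) ≤ (S.card : ℝ) := by
  classical
  intro C
  obtain ⟨c, hc, n₀, h⟩ := Pool.Agent.Helper72.GP.main_all C
  refine ⟨c, hc, n₀, fun P hP hbox hline => ?_⟩
  have hcard : ∀ (T : Finset (ℤ × ℤ)) (a b d : ℝ),
      ({p ∈ (T : Set (ℤ × ℤ)) | a * (p.1 : ℝ) + b * (p.2 : ℝ) = d}).ncard =
        (T.filter (fun p => a * (p.1 : ℝ) + b * (p.2 : ℝ) = d)).card := by
    intro T a b d
    rw [← Set.ncard_coe_finset]
    congr 1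
    ext p
    simp
  obtain ⟨S, hS, h1, h2⟩ := h P hP hbox (fun a b d hab => by
    have := hline a b d hab
    rw [hcard] at this
    convert this)
  refine ⟨S, hS, fun a b d hab => ?_, h2⟩
  have := h1 a b d hab
  rw [hcard]
  convert this

end Pool.Agent.Results.MP_c9dfb5_co.IntegerSets
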